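import Pool.Agent.MWKP.Stmts

/-!
# MWKP, row KIT: dead words inserted between segments
-/

namespace Pool.Agent.MWKP.H52

open Pool.Agent.Helper14_MV Pool.Agent.Helper2_MV Pool.Agent.MWK Pool.Agent.MWKP

theorem kit (kdd : KddStmt) : KitStmt := by
  intro n θ hK qs
  induction qs with
  | nil =>
    intro Fs Fs' P R h1 h2 _ _ _
    have e1 : Fs = [] := List.eq_nil_of_length_eq_zero (by simpa using h1)
    have e2 : Fs' = [] := List.eq_nil_of_length_eq_zero (by simpa using h2)
    subst e1; subst e2
    exact RR.refl _
  | cons q qs ih =>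
    intro Fs Fs' P R h1 h2 hF hF' hc
    match Fs, Fs', h1, h2, hF, hF', hc with
    | F :: Fs, F' :: Fs', h1, h2, hF, hF', hc =>
      have h1' : Fs.length = qs.length := by simpa using h1
      have h2' : Fs'.length = qs.length := by simpa using h2
      have a1 : ∀ l ∈ F, 2 ≤ (P ++ q).count l := by
        intro l hl
        have := hF 0 F (by simp) l hl
        simpa using this
      have a2 : ∀ l ∈ F', 2 ≤ (P ++ q).count l := by
        intro l hl
        have := hF' 0 F' (by simp) l hl
        simpa using this
      have s1 : RR θ ((P ++ q) ++ F ++ (itl qs Fs ++ R)) ((P ++ q) ++ F' ++ (itl qs Fs ++ R)) :=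
        kdd n θ hK (P ++ q) F F' (itl qs Fs ++ R) a1 a2 (hc 0 F F' (by simp) (by simp))
      have s2 : RR θ ((P ++ q ++ F') ++ itl qs Fs ++ R) ((P ++ q ++ F') ++ itl qs Fs' ++ R) := by
        refine ih Fs Fs' (P ++ q ++ F') R h1' h2' ?_ ?_ ?_
        · intro i G hG l hl
          have h := hF (i + 1) G (by simpa using hG) l hl
          simp only [List.take_succ_cons, List.flatten_cons, List.count_append] at h ⊢
          omega
        · intro i G hG l hl
          have h := hF' (i + 1) G (by simpa using hG) l hl
          simp only [List.take_succ_cons, List.flatten_cons, List.count_append] at h ⊢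
          omega
        · intro i G G' hG hG' l
          exact hc (i + 1) G G' (by simpa using hG) (by simpa using hG') l
      have e1 : P ++ itl (q :: qs) (F :: Fs) ++ R = (P ++ q) ++ F ++ (itl qs Fs ++ R) := by
        simp [itl]
      have e2 : P ++ itl (q :: qs) (F' :: Fs') ++ R = (P ++ q ++ F') ++ itl qs Fs' ++ R := by
        simp [itl]
      have e3 : (P ++ q) ++ F' ++ (itl qs Fs ++ R) = (P ++ q ++ F') ++ itl qs Fs ++ R := by
        simp
      rw [e1, e2]
      rw [e3] at s1
      exact θ.trans s1 s2

end Pool.Agent.MWKP.H52
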