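import Pool.Agent.MWKP.StmtsN
import Pool.Agent.Helper3_MWK.NAA

/-!
# MWKP, row NAN: if idempotents do not commute, the words `x^i y^j` are preserved (period `n`)
-/

namespace Pool.Agent.MWKP.H52

open Pool.Agent.Helper14_MV Pool.Agent.Helper2_MV Pool.Agent.MWK Pool.Agent.MWKP
open Pool.Agent.Helper44_MVT Pool.Agent.Helper70_MWR

theorem nan_ev_rep {M : Type*} [Monoid M] (g : ℕ → M) (c k : ℕ) :
    ev g (List.replicate k c) = g c ^ k := by
  simp [ev]

/-- the key: `e_0 e_1 e_0 E(r) e_1` is the zero -/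
theorem nan_key {M : Type*} [Monoid M] {n : ℕ} (H : Wc n M) (x y : M) (r : List ℕ)
    (hr : ∀ c ∈ r, c = 0 ∨ c = 1) :
    x ^ (2 * n) * y ^ (2 * n) * x ^ (2 * n) *
      ev (fun c => if c = 0 then x ^ (2 * n) else y ^ (2 * n)) r * y ^ (2 * n) =
        (x * y) ^ (2 * n) := by
  induction r with
  | nil =>
    rw [ev_nil, mul_one, H.zdef, pow_two]
    simp only [mul_assoc]
  | cons c r ih =>
    have hr' : ∀ d ∈ r, d = 0 ∨ d = 1 := fun d hd => hr d (List.mem_cons_of_mem _ hd)
    rcases hr c (by simp) with rfl | rfl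
    · rw [ev_cons, if_pos rfl]
      have e1 : x ^ (2 * n) * y ^ (2 * n) * x ^ (2 * n) *
          (x ^ (2 * n) * ev (fun c => if c = 0 then x ^ (2 * n) else y ^ (2 * n)) r) * y ^ (2 * n) =
          x ^ (2 * n) * y ^ (2 * n) * (x ^ (2 * n) * x ^ (2 * n)) *
            ev (fun c => if c = 0 then x ^ (2 * n) else y ^ (2 * n)) r * y ^ (2 * n) := by
        simp only [mul_assoc]
      rw [e1, H.ee]
      exact ih hr'
    · rw [ev_cons, if_neg (by decide)]
      have e1 : x ^ (2 * n) * y ^ (2 * n) * x ^ (2 * n) *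
          (y ^ (2 * n) * ev (fun c => if c = 0 then x ^ (2 * n) else y ^ (2 * n)) r) * y ^ (2 * n) =
          (x ^ (2 * n) * y ^ (2 * n)) ^ 2 *
            ev (fun c => if c = 0 then x ^ (2 * n) else y ^ (2 * n)) r * y ^ (2 * n) := by
        rw [pow_two]
        simp only [mul_assoc]
      rw [e1, ← H.zdef]
      rw [ev_absR (m := (x * y) ^ (2 * n)), H.ze']
      intro d hd
      rcases hr' d hd with rfl | rfl
      · rw [if_pos rfl]
        exact H.ze x y
      · rw [if_neg (by decide)]
        exact H.ze' x y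

theorem nan (_hPWN : PwnStmt) (hCTN : CtnStmt) : NanStmt := by
  intro n β hm hg hn w w' hw hPA
  have hpos := hg.pos
  obtain ⟨i, j, hi, hj, rfl⟩ := hPA
  have hlet : ∀ c ∈ w', c = 0 ∨ c = 1 := by
    intro c hc
    have h1 := ((hCTN n β hg _ _ hw c).1).2 hc
    rcases List.mem_append.1 h1 with h | h
    · exact Or.inl (List.mem_replicate.1 h).2
    · exact Or.inr (List.mem_replicate.1 h).2
  have hcw0 : (List.replicate i 0 ++ List.replicate j 1).count 0 = i := by
    rw [List.count_append, List.count_replicate_self, List.count_replicate]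
    simp
  have hcw1 : (List.replicate i 0 ++ List.replicate j 1).count 1 = j := by
    rw [List.count_append, List.count_replicate_self, List.count_replicate]
    simp
  have hc0 : 2 ≤ w'.count 0 := by
    have h1 : 0 ∈ w' := ((hCTN n β hg _ _ hw 0).1).1 (by
      rw [← List.count_pos_iff, hcw0]; omega)
    have h2 : 0 < w'.count 0 := List.count_pos_iff.2 h1
    have h3 : w'.count 0 ≠ 1 := by
      intro h
      have := ((hCTN n β hg _ _ hw 0).2).2 h
      omega
    omega
  have hc1 : 2 ≤ w'.count 1 := by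
    have h1 : 1 ∈ w' := ((hCTN n β hg _ _ hw 1).1).1 (by
      rw [← List.count_pos_iff, hcw1]; omega)
    have h2 : 0 < w'.count 1 := List.count_pos_iff.2 h1
    have h3 : w'.count 1 ≠ 1 := by
      intro h
      have := ((hCTN n β hg _ _ hw 1).2).2 h
      omega
    omega
  rcases MWK.H3.shape01 w' hlet with ⟨a, b, hab⟩ | ⟨a, b, r, hb, hab, hr⟩
  · refine ⟨a, b, ?_, ?_, hab⟩
    · rw [hab, List.count_append, List.count_replicate_self, List.count_replicate] at hc0
      simpa using hc0
    · rw [hab, List.count_append, List.count_replicate_self, List.count_replicate] at hc1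
      simpa using hc1
  · exfalso
    apply hn
    have H : Wc n (MM β) := Hg.wc ⟨hg.pos, hg.per, hg.gm, hm, hg.ncr⟩
    have key : ∀ x y : MM β, x ^ (2 * n) * y ^ (2 * n) = (x * y) ^ (2 * n) := by
      intro x y
      have h1 := ev_eq hw (fun c => if c = 0 then x ^ (2 * n) else y ^ (2 * n))
      have pl : ∀ k : ℕ, x ^ (2 * n) * (x ^ (2 * n)) ^ k = x ^ (2 * n) := by
        intro k
        rw [← pow_succ', H.epow x (by omega)]
      have pr : ∀ k : ℕ, (y ^ (2 * n)) ^ k * y ^ (2 * n) = y ^ (2 * n) := by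
        intro k
        rw [← pow_succ, H.epow y (by omega)]
      have h2 : x ^ (2 * n) * ev (fun c => if c = 0 then x ^ (2 * n) else y ^ (2 * n))
          (List.replicate i 0 ++ List.replicate j 1) * y ^ (2 * n) =
            x ^ (2 * n) * y ^ (2 * n) := by
        rw [ev_append, nan_ev_rep, nan_ev_rep, if_pos rfl, if_neg (by decide), ← mul_assoc, pl,
          mul_assoc, pr]
      have h3 : x ^ (2 * n) * ev (fun c => if c = 0 then x ^ (2 * n) else y ^ (2 * n)) w' *
          y ^ (2 * n) = (x * y) ^ (2 * n) := by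
        rw [hab, ev_append, ev_append, nan_ev_rep, nan_ev_rep, ev_cons, if_pos rfl,
          if_neg (by decide), H.epow y hb]
        have e1 : x ^ (2 * n) * ((x ^ (2 * n)) ^ a * y ^ (2 * n) * (x ^ (2 * n) *
            ev (fun c => if c = 0 then x ^ (2 * n) else y ^ (2 * n)) r)) * y ^ (2 * n) =
            (x ^ (2 * n) * (x ^ (2 * n)) ^ a) * y ^ (2 * n) * x ^ (2 * n) *
            ev (fun c => if c = 0 then x ^ (2 * n) else y ^ (2 * n)) r * y ^ (2 * n) := by
          simp only [mul_assoc]
        rw [e1, pl]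
        exact nan_key H x y r hr
      rw [← h2, h1, h3]
    rw [rr_iff, ev_append, ev_append, nan_ev_rep, nan_ev_rep, key, key, H.zsymm]

end Pool.Agent.MWKP.H52
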